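import Mathlib

/-!
# Defect exponents of a bounded Fourier transform need not be integrable

Disproof of MP_598c7e_an, Q1: `p = 2` on a sparse union of unit intervals, `p = 4/3` elsewhere,
and `q = 4`.
-/

open MeasureTheory Filter Topology FourierTransform
open scoped ENNReal NNReal SchwartzMap ContDiff Convolution InnerProductSpace

noncomputable section

namespace Pool.Agent.Results.MP_598c7e_an.DefectNotIntegrable

/-- Exponents: measurable functions with values in `[1, ∞]`. -/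
def IsExponent (p : ℝ → ℝ≥0∞) : Prop := Measurable p ∧ ∀ x, 1 ≤ p x

/-- The modular `ρ_p(f) = ∫_{p < ∞} |f|^{p(x)} dx + ‖f‖_{L^∞(p = ∞)}`. -/
def modular (p : ℝ → ℝ≥0∞) (f : ℝ → ℂ) : ℝ≥0∞ :=
  (∫⁻ x in {x | p x ≠ ⊤}, ‖f x‖ₑ ^ (p x).toReal) + eLpNorm f ⊤ (volume.restrict {x | p x = ⊤})

/-- `f ∈ L^{p(·)}(ℝ)`. -/
def MemVar (p : ℝ → ℝ≥0∞) (f : ℝ → ℂ) : Prop :=
  AEStronglyMeasurable f volume ∧ ∃ l : ℝ, 0 < l ∧ modular p (fun x => f x / l) < ⊤

/-- The Luxemburg norm `‖f‖_{p(·)} = inf {λ > 0 : ρ_p(f/λ) ≤ 1}`. -/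
def varNorm (p : ℝ → ℝ≥0∞) (f : ℝ → ℂ) : ℝ≥0∞ :=
  ⨅ (l : ℝ) (_ : 0 < l ∧ modular p (fun x => f x / l) ≤ 1), ENNReal.ofReal l

/-- Boundedness of the Fourier transform from `L^{p(·)}` to `L^{q(·)}`. -/
def FourierBounded (p q : ℝ → ℝ≥0∞) : Prop :=
  ∃ C : ℝ≥0, ∀ f : ℝ → ℂ, Integrable f → MemVar p f → varNorm q (𝓕 f) ≤ C * varNorm p f

/-- `p_- = ess inf p`. -/
def pminus (p : ℝ → ℝ≥0∞) : ℝ≥0∞ := essInf p volume

/-- The defect exponent `1/r(x) = 1/p_- - 1/p(x)`. -/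
def defectR (p : ℝ → ℝ≥0∞) (x : ℝ) : ℝ≥0∞ := ((pminus p)⁻¹ - (p x)⁻¹)⁻¹

/-- The defect exponent `1/s(x) = 1/q(x) - 1/(p_-)'`, where `1/(p_-)' = 1 - 1/p_-`. -/
def defectS (p q : ℝ → ℝ≥0∞) (x : ℝ) : ℝ≥0∞ := ((q x)⁻¹ - (1 - (pminus p)⁻¹))⁻¹

/-! ### Plancherel -/

lemma fourier_toLp_ae (h : ℝ → ℂ) (h1 : Integrable h) (h2 : MemLp h 2) :
    (𝓕 (h2.toLp h : Lp (α := ℝ) ℂ 2) : Lp (α := ℝ) ℂ 2) =ᵐ[volume] 𝓕 h := by
  apply ae_eq_of_integral_contDiff_smul_eq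
  · exact (Lp.memLp _).locallyIntegrable (by norm_num)
  · apply Continuous.locallyIntegrable
    exact VectorFourier.fourierIntegral_continuous Real.continuous_fourierChar
      (innerSL ℝ).continuous₂ h1
  · intro g g_smooth g_cpt
    have hg₁ : HasCompactSupport (Complex.ofRealCLM ∘ g) := g_cpt.comp_left rfl
    have hg₂ : ContDiff ℝ ∞ (Complex.ofRealCLM ∘ g) := by fun_prop
    set G : 𝓢(ℝ, ℂ) := hg₁.toSchwartzMap hg₂ with hG
    have e1 : ∫ x, g x • (𝓕 (h2.toLp h : Lp (α := ℝ) ℂ 2) : Lp (α := ℝ) ℂ 2) x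
        = (Lp.toTemperedDistribution (𝓕 (h2.toLp h : Lp (α := ℝ) ℂ 2) : Lp (α := ℝ) ℂ 2)) G := by
      rw [Lp.toTemperedDistribution_apply]
      simp [hG]
    rw [e1, ← Lp.fourier_toTemperedDistribution_eq, TemperedDistribution.fourier_apply,
      Lp.toTemperedDistribution_apply]
    have e2 : ∫ x, (𝓕 G) x • (h2.toLp h : Lp (α := ℝ) ℂ 2) x = ∫ x, (𝓕 (G : ℝ → ℂ)) x • h x := by
      apply integral_congr_ae
      filter_upwards [h2.coeFn_toLp] with x hx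
      rw [hx]
      rfl
    rw [e2]
    have e3 : ∫ x, (𝓕 (G : ℝ → ℂ)) x • h x = ∫ x, (G x) • (𝓕 h) x := by
      simpa using! (VectorFourier.integral_fourierIntegral_smul_eq_flip (L := innerₗ ℝ)
        Real.continuous_fourierChar continuous_inner G.integrable h1)
    rw [e3]
    apply integral_congr_ae
    filter_upwards with x
    simp [hG]

lemma plancherel_lintegral (h : ℝ → ℂ) (h1 : Integrable h) (h2 : MemLp h 2) :
    ∫⁻ ξ, ‖𝓕 h ξ‖ₑ ^ 2 = ∫⁻ t, ‖h t‖ₑ ^ 2 := by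
  have e1 : ‖(𝓕 (h2.toLp h : Lp (α := ℝ) ℂ 2) : Lp (α := ℝ) ℂ 2)‖ₑ
      = ‖(h2.toLp h : Lp (α := ℝ) ℂ 2)‖ₑ := by
    rw [← ofReal_norm, ← ofReal_norm, Lp.norm_fourier_eq]
  rw [Lp.enorm_def, Lp.enorm_def, eLpNorm_congr_ae (fourier_toLp_ae h h1 h2),
    eLpNorm_congr_ae h2.coeFn_toLp] at e1
  have e2 : ∀ f : ℝ → ℂ, eLpNorm f 2 volume = (∫⁻ x, ‖f x‖ₑ ^ 2) ^ (1 / 2 : ℝ) := by
    intro f
    rw [eLpNorm_eq_lintegral_rpow_enorm_toReal (by norm_num) (by norm_num)]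
    simp
  rw [e2, e2] at e1
  exact ENNReal.rpow_left_injective (by norm_num) e1

/-- `‖f̂‖₄⁴ ≤ ‖|f| * |f|‖₂²`. -/
lemma fourier_four (f : ℝ → ℂ) (hf : Integrable f) :
    ∫⁻ ξ, ‖𝓕 f ξ‖ₑ ^ 4 ≤ ∫⁻ x, (∫⁻ y, ‖f y‖ₑ * ‖f (x - y)‖ₑ) ^ 2 := by
  set c : ℝ → ℂ := f ⋆[ContinuousLinearMap.mul ℂ ℂ] f with hc
  have hci : Integrable c := hf.integrable_convolution _ hf
  have hcb : ∀ x, ‖c x‖ₑ ≤ ∫⁻ y, ‖f y‖ₑ * ‖f (x - y)‖ₑ := by
    intro x
    rw [hc]
    unfold convolution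
    refine (enorm_integral_le_lintegral_enorm _).trans (le_of_eq ?_)
    congr 1
    funext y
    simp [enorm_mul]
  have hle : ∫⁻ x, ‖c x‖ₑ ^ 2 ≤ ∫⁻ x, (∫⁻ y, ‖f y‖ₑ * ‖f (x - y)‖ₑ) ^ 2 :=
    lintegral_mono (fun x => pow_le_pow_left' (hcb x) 2)
  by_cases htop : ∫⁻ x, ‖c x‖ₑ ^ 2 = ⊤
  · rw [htop, top_le_iff] at hle
    rw [hle]
    exact le_top
  · have hmem : MemLp c 2 := by
      refine ⟨hci.aestronglyMeasurable, ?_⟩
      rw [eLpNorm_lt_top_iff_lintegral_rpow_enorm_lt_top (by norm_num) (by norm_num)]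
      have : ∫⁻ x, ‖c x‖ₑ ^ (2 : ℝ≥0∞).toReal = ∫⁻ x, ‖c x‖ₑ ^ 2 := by
        congr 1; funext x; simp
      rw [this]
      exact lt_top_iff_ne_top.mpr htop
    have h1 := plancherel_lintegral c hci hmem
    have h2 : ∀ ξ, ‖𝓕 f ξ‖ₑ ^ 4 = ‖𝓕 c ξ‖ₑ ^ 2 := by
      intro ξ
      rw [hc, Real.fourier_mul_convolution_eq hf hf, enorm_mul]
      ring
    simp_rw [h2]
    rw [h1]
    exact hle

/-- total mass of a convolution of nonnegative functions -/
lemma lintegral_conv {P : ℝ → ℝ≥0∞} (hP : Measurable P) :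
    ∫⁻ x, ∫⁻ y, P y * P (x - y) = (∫⁻ y, P y) ^ 2 := by
  rw [lintegral_lintegral_swap]
  · have : ∀ y, ∫⁻ x, P y * P (x - y) = P y * ∫⁻ x, P x := by
      intro y
      rw [lintegral_const_mul _ (by fun_prop)]
      congr 1
      exact lintegral_sub_right_eq_self _ y
    simp_rw [this]
    rw [lintegral_mul_const _ hP, sq]
  · apply Measurable.aemeasurable
    unfold Function.uncurry
    fun_prop

/-! ### The sparse set -/

/-- `A = ⋃ [4^{n+1}, 4^{n+1}+1]`. -/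
def A : Set ℝ := ⋃ n : ℕ, Set.Icc ((4 : ℝ) ^ (n + 1)) (4 ^ (n + 1) + 1)

lemma measurableSet_A : MeasurableSet A := MeasurableSet.iUnion (fun _ => measurableSet_Icc)

lemma volume_A : volume A = ⊤ := by
  unfold A
  rw [measure_iUnion _ (fun _ => measurableSet_Icc)]
  · have : ∀ n : ℕ, volume (Set.Icc ((4 : ℝ) ^ (n + 1)) (4 ^ (n + 1) + 1)) = 1 := by
      intro n
      rw [Real.volume_Icc, add_sub_cancel_left, ENNReal.ofReal_one]
    simp_rw [this]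
    exact ENNReal.tsum_const_eq_top_of_ne_zero one_ne_zero
  · have key : ∀ m n : ℕ, m < n → Disjoint (Set.Icc ((4 : ℝ) ^ (m + 1)) (4 ^ (m + 1) + 1))
        (Set.Icc ((4 : ℝ) ^ (n + 1)) (4 ^ (n + 1) + 1)) := by
      intro m n h
      rw [Set.disjoint_left]
      intro x hx hx'
      have h1 : (4 : ℝ) ^ (m + 1 + 1) ≤ 4 ^ (n + 1) := by
        apply pow_le_pow_right₀ (by norm_num); omega
      rw [pow_succ] at h1
      have h2 : (4 : ℝ) ≤ 4 ^ (m + 1) := by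
        rw [pow_succ]
        have : (1 : ℝ) ≤ 4 ^ m := one_le_pow₀ (by norm_num)
        linarith
      linarith [hx.2, hx'.1]
    intro m n hmn
    rcases lt_or_gt_of_ne hmn with h | h
    · exact key m n h
    · exact (key n m h).symm

lemma mem_pair {x y : ℝ} (hy : y ∈ A) (hxy : x - y ∈ A) :
    ∃ N : ℕ, (4 : ℝ) ^ (N + 1) ≤ x ∧ x < 4 ^ (N + 2) ∧
      (y ∈ Set.Icc ((4 : ℝ) ^ (N + 1)) (4 ^ (N + 1) + 1) ∨
        x - y ∈ Set.Icc ((4 : ℝ) ^ (N + 1)) (4 ^ (N + 1) + 1)) := by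
  obtain ⟨n, hn⟩ := Set.mem_iUnion.mp hy
  obtain ⟨m, hm⟩ := Set.mem_iUnion.mp hxy
  have hpos : ∀ k : ℕ, (4 : ℝ) ≤ 4 ^ (k + 1) := by
    intro k
    rw [pow_succ]
    have : (1 : ℝ) ≤ 4 ^ k := one_le_pow₀ (by norm_num)
    linarith
  rcases le_total m n with h | h
  · refine ⟨n, ?_, ?_, Or.inl hn⟩
    · linarith [hn.1, hm.1, hpos m]
    · have h1 : (4 : ℝ) ^ (m + 1) ≤ 4 ^ (n + 1) := by
        apply pow_le_pow_right₀ (by norm_num); omega
      have h2 : (4 : ℝ) ^ (n + 2) = 4 ^ (n + 1) * 4 := by ring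
      rw [h2]
      linarith [hn.2, hm.2, hpos n]
  · refine ⟨m, ?_, ?_, Or.inr hm⟩
    · linarith [hn.1, hm.1, hpos n]
    · have h1 : (4 : ℝ) ^ (n + 1) ≤ 4 ^ (m + 1) := by
        apply pow_le_pow_right₀ (by norm_num); omega
      have h2 : (4 : ℝ) ^ (m + 2) = 4 ^ (m + 1) * 4 := by ring
      rw [h2]
      linarith [hn.2, hm.2, hpos m]

lemma volume_pair (x : ℝ) : volume {y | y ∈ A ∧ x - y ∈ A} ≤ 2 := by
  by_cases h : ∃ y, y ∈ A ∧ x - y ∈ A
  · obtain ⟨y0, h0, h0'⟩ := h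
    obtain ⟨N, hN1, hN2, _⟩ := mem_pair h0 h0'
    have hsub : {y | y ∈ A ∧ x - y ∈ A} ⊆ Set.Icc ((4 : ℝ) ^ (N + 1)) (4 ^ (N + 1) + 1) ∪
        Set.Icc (x - (4 ^ (N + 1) + 1)) (x - 4 ^ (N + 1)) := by
      rintro y ⟨hy, hy'⟩
      obtain ⟨M, hM1, hM2, hM3⟩ := mem_pair hy hy'
      have hMN : M = N := by
        have h1 : (4 : ℝ) ^ (M + 1) < 4 ^ (N + 2) := lt_of_le_of_lt hM1 hN2
        have h2 : (4 : ℝ) ^ (N + 1) < 4 ^ (M + 2) := lt_of_le_of_lt hN1 hM2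
        have h3 := (pow_lt_pow_iff_right₀ (by norm_num : (1 : ℝ) < 4)).mp h1
        have h4 := (pow_lt_pow_iff_right₀ (by norm_num : (1 : ℝ) < 4)).mp h2
        omega
      subst hMN
      rcases hM3 with h | h
      · exact Or.inl h
      · right
        exact ⟨by linarith [h.2], by linarith [h.1]⟩
    refine (measure_mono hsub).trans ((measure_union_le _ _).trans ?_)
    rw [Real.volume_Icc, Real.volume_Icc]
    have h1 : (4 : ℝ) ^ (N + 1) + 1 - 4 ^ (N + 1) = 1 := by ring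
    have h2 : x - (4 : ℝ) ^ (N + 1) - (x - (4 ^ (N + 1) + 1)) = 1 := by ring
    rw [h1, h2, ENNReal.ofReal_one]
    norm_num
  · have : {y | y ∈ A ∧ x - y ∈ A} = ∅ := by
      ext y
      simp only [Set.mem_ofPred_eq, Set.mem_empty_iff_false, iff_false]
      exact fun hy => h ⟨y, hy⟩
    rw [this, measure_empty]
    exact bot_le

/-! ### The two estimates -/

/-- off `A`: Young's inequality `‖|h| * |h|‖₂² ≤ (∫ |h|^{4/3})³`. -/
lemma young (F : ℝ → ℝ≥0∞) (hF : Measurable F) :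
    ∫⁻ x, (∫⁻ y, F y * F (x - y)) ^ 2 ≤ (∫⁻ y, F y ^ (4 / 3 : ℝ)) ^ 3 := by
  set P : ℝ → ℝ≥0∞ := fun y => F y ^ (4 / 3 : ℝ) with hP
  have hPm : Measurable P := hF.pow_const _
  have hpt : ∀ x, (∫⁻ y, F y * F (x - y)) ^ 2 ≤ (∫⁻ y, P y * P (x - y)) * ∫⁻ y, P y := by
    intro x
    have h1 : ∀ y, F y * F (x - y)
        = ∏ i : Fin 3, ((![fun y => P y * P (x - y), P, fun y => P (x - y)] : Fin 3 → ℝ → ℝ≥0∞) i y)
          ^ ((![1 / 2, 1 / 4, 1 / 4] : Fin 3 → ℝ) i) := by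
      intro y
      simp only [Fin.prod_univ_three, Matrix.cons_val_zero, Matrix.cons_val_one, Matrix.cons_val_two,
        Matrix.head_cons, Matrix.tail_cons]
      simp only [hP]
      rw [ENNReal.mul_rpow_of_nonneg _ _ (by norm_num : (0 : ℝ) ≤ 1 / 2)]
      have h2 : ∀ a : ℝ≥0∞, (a ^ (4 / 3 : ℝ)) ^ (1 / 2 : ℝ) * (a ^ (4 / 3 : ℝ)) ^ (1 / 4 : ℝ) = a := by
        intro a
        rw [← ENNReal.rpow_add_of_nonneg _ _ (by norm_num) (by norm_num), ← ENNReal.rpow_mul]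
        norm_num
      calc F y * F (x - y)
          = ((F y ^ (4 / 3 : ℝ)) ^ (1 / 2 : ℝ) * (F y ^ (4 / 3 : ℝ)) ^ (1 / 4 : ℝ)) *
            ((F (x - y) ^ (4 / 3 : ℝ)) ^ (1 / 2 : ℝ) * (F (x - y) ^ (4 / 3 : ℝ)) ^ (1 / 4 : ℝ)) := by
              rw [h2, h2]
        _ = _ := by ring
    have h3 : ∫⁻ y, F y * F (x - y) ≤ ∏ i : Fin 3,
        (∫⁻ y, (![fun y => P y * P (x - y), P, fun y => P (x - y)] : Fin 3 → ℝ → ℝ≥0∞) i y)
          ^ ((![1 / 2, 1 / 4, 1 / 4] : Fin 3 → ℝ) i) := by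
      simp_rw [h1]
      apply ENNReal.lintegral_prod_norm_pow_le
      · intro i _
        apply Measurable.aemeasurable
        fin_cases i
        · exact hPm.mul (hPm.comp (by fun_prop))
        · exact hPm
        · exact hPm.comp (by fun_prop)
      · simp [Fin.sum_univ_three]; norm_num
      · intro i _
        fin_cases i <;> simp
    simp only [Fin.prod_univ_three, Matrix.cons_val_zero, Matrix.cons_val_one, Matrix.cons_val_two,
      Matrix.head_cons, Matrix.tail_cons] at h3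
    have h4 : ∫⁻ y, P (x - y) = ∫⁻ y, P y := lintegral_sub_left_eq_self P x
    rw [h4] at h3
    refine (pow_le_pow_left' h3 2).trans (le_of_eq ?_)
    rw [mul_assoc, ← ENNReal.rpow_add_of_nonneg _ _ (by norm_num) (by norm_num), mul_pow,
      ← ENNReal.rpow_natCast, ← ENNReal.rpow_natCast, ← ENNReal.rpow_mul, ← ENNReal.rpow_mul]
    norm_num
  calc ∫⁻ x, (∫⁻ y, F y * F (x - y)) ^ 2
      ≤ ∫⁻ x, (∫⁻ y, P y * P (x - y)) * ∫⁻ y, P y := lintegral_mono hpt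
    _ = (∫⁻ x, ∫⁻ y, P y * P (x - y)) * ∫⁻ y, P y := by
        rw [lintegral_mul_const]
        apply Measurable.lintegral_prod_right'
          (f := fun p : ℝ × ℝ => P p.2 * P (p.1 - p.2))
        fun_prop
    _ = (∫⁻ y, P y) ^ 3 := by
        rw [lintegral_conv hPm]
        ring

/-- on `A`: `‖|g| * |g|‖₂² ≤ 2 (∫ |g|²)²`. -/
lemma sparse (F : ℝ → ℝ≥0∞) (hF : Measurable F) (hA : ∀ y, y ∉ A → F y = 0) :
    ∫⁻ x, (∫⁻ y, F y * F (x - y)) ^ 2 ≤ 2 * (∫⁻ y, F y ^ 2) ^ 2 := by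
  have hpt : ∀ x, (∫⁻ y, F y * F (x - y)) ^ 2 ≤ 2 * ∫⁻ y, F y ^ 2 * F (x - y) ^ 2 := by
    intro x
    have hS : MeasurableSet {y | y ∈ A ∧ x - y ∈ A} :=
      measurableSet_A.inter ((measurable_const.sub measurable_id) measurableSet_A)
    have h1 : ∀ y, F y * F (x - y)
        = (Set.indicator {y | y ∈ A ∧ x - y ∈ A} 1 y) ^ (1 / 2 : ℝ)
          * (F y ^ 2 * F (x - y) ^ 2) ^ (1 / 2 : ℝ) := by
      intro y
      by_cases hy : y ∈ A ∧ x - y ∈ A
      · rw [Set.indicator_of_mem (show y ∈ {y | y ∈ A ∧ x - y ∈ A} from hy), Pi.one_apply,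
          ENNReal.one_rpow, one_mul, ← mul_pow, ← ENNReal.rpow_natCast, ← ENNReal.rpow_mul]
        norm_num
      · rw [Set.indicator_of_notMem (show y ∉ {y | y ∈ A ∧ x - y ∈ A} from hy),
          ENNReal.zero_rpow_of_pos (by norm_num), zero_mul]
        by_cases h2 : y ∈ A
        · rw [hA (x - y) (fun h3 => hy ⟨h2, h3⟩), mul_zero]
        · rw [hA y h2, zero_mul]
    have h2 : ∫⁻ y, F y * F (x - y)
        ≤ (∫⁻ y, Set.indicator {y | y ∈ A ∧ x - y ∈ A} 1 y) ^ (1 / 2 : ℝ)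
          * (∫⁻ y, F y ^ 2 * F (x - y) ^ 2) ^ (1 / 2 : ℝ) := by
      simp_rw [h1]
      apply ENNReal.lintegral_mul_norm_pow_le
      · exact (measurable_one.indicator hS).aemeasurable
      · apply Measurable.aemeasurable
        fun_prop
      · norm_num
      · norm_num
      · norm_num
    have h3 : ∫⁻ y, Set.indicator {y | y ∈ A ∧ x - y ∈ A} 1 y ≤ (2 : ℝ≥0∞) := by
      rw [lintegral_indicator_one hS]
      exact volume_pair x
    refine (pow_le_pow_left' h2 2).trans ?_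
    rw [mul_pow, ← ENNReal.rpow_natCast, ← ENNReal.rpow_natCast, ← ENNReal.rpow_mul,
      ← ENNReal.rpow_mul]
    norm_num
    gcongr
  calc ∫⁻ x, (∫⁻ y, F y * F (x - y)) ^ 2
      ≤ ∫⁻ x, 2 * ∫⁻ y, F y ^ 2 * F (x - y) ^ 2 := lintegral_mono hpt
    _ = 2 * ∫⁻ x, ∫⁻ y, F y ^ 2 * F (x - y) ^ 2 := by
        rw [lintegral_const_mul]
        apply Measurable.lintegral_prod_right'
          (f := fun p : ℝ × ℝ => F p.2 ^ 2 * F (p.1 - p.2) ^ 2)
        fun_prop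
    _ = 2 * (∫⁻ y, F y ^ 2) ^ 2 := by
        rw [lintegral_conv (P := fun y => F y ^ 2) (hF.pow_const 2)]

/-! ### Boundedness -/

lemma fourier_add_le {g h : ℝ → ℂ} (hg : Integrable g) (hh : Integrable h) (ξ : ℝ) :
    ‖𝓕 (g + h) ξ‖ₑ ≤ ‖𝓕 g ξ‖ₑ + ‖𝓕 h ξ‖ₑ := by
  have hi : ∀ {f : ℝ → ℂ}, Integrable f → Integrable
      (fun v => Complex.exp ((-2 * Real.pi * v * ξ : ℝ) * Complex.I) • f v) := by
    intro f hf
    refine hf.bdd_mul (c := 1) (Continuous.aestronglyMeasurable (by fun_prop)) ?_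
    filter_upwards with v
    rw [Complex.norm_exp_ofReal_mul_I]
  have : 𝓕 (g + h) ξ = 𝓕 g ξ + 𝓕 h ξ := by
    rw [Real.fourier_real_eq_integral_exp_smul, Real.fourier_real_eq_integral_exp_smul,
      Real.fourier_real_eq_integral_exp_smul, ← integral_add (hi hg) (hi hh)]
    congr 1
    funext v
    rw [Pi.add_apply, smul_add]
  rw [this]
  exact enorm_add_le _ _

lemma main_bound (u : ℝ → ℂ) (hu : Integrable u)
    (h : (∫⁻ x in A, ‖u x‖ₑ ^ 2) + (∫⁻ x in Aᶜ, ‖u x‖ₑ ^ (4 / 3 : ℝ)) ≤ 1) :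
    ∫⁻ ξ, ‖𝓕 u ξ‖ₑ ^ 4 ≤ 24 := by
  set v := hu.aestronglyMeasurable.mk u with hv
  have hvm : StronglyMeasurable v := hu.aestronglyMeasurable.stronglyMeasurable_mk
  have huv : u =ᵐ[volume] v := hu.aestronglyMeasurable.ae_eq_mk
  have hvi : Integrable v := hu.congr huv
  have hF : 𝓕 u = 𝓕 v := by
    funext ξ
    rw [Real.fourier_real_eq_integral_exp_smul, Real.fourier_real_eq_integral_exp_smul]
    apply integral_congr_ae
    filter_upwards [huv] with x hx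
    rw [hx]
  have h1 : ∫⁻ x in A, ‖u x‖ₑ ^ 2 = ∫⁻ x in A, ‖v x‖ₑ ^ 2 := by
    apply lintegral_congr_ae
    filter_upwards [ae_restrict_of_ae huv] with x hx
    rw [hx]
  have h2 : ∫⁻ x in Aᶜ, ‖u x‖ₑ ^ (4 / 3 : ℝ) = ∫⁻ x in Aᶜ, ‖v x‖ₑ ^ (4 / 3 : ℝ) := by
    apply lintegral_congr_ae
    filter_upwards [ae_restrict_of_ae huv] with x hx
    rw [hx]
  rw [h1, h2] at h
  rw [hF]
  set g := A.indicator v with hg
  set k := Aᶜ.indicator v with hk
  have hgk : v = g + k := by rw [hg, hk, Set.indicator_self_add_compl]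
  have hgi : Integrable g := hvi.indicator measurableSet_A
  have hki : Integrable k := hvi.indicator measurableSet_A.compl
  have hgm : Measurable (fun y => ‖g y‖ₑ) :=
    (hvm.measurable.indicator measurableSet_A).enorm
  have hkm : Measurable (fun y => ‖k y‖ₑ) :=
    (hvm.measurable.indicator measurableSet_A.compl).enorm
  have h3 : ∫⁻ ξ, ‖𝓕 g ξ‖ₑ ^ 4 ≤ 2 := by
    refine (fourier_four g hgi).trans ?_
    refine (sparse (fun y => ‖g y‖ₑ) hgm ?_).trans ?_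
    · intro y hy
      simp [hg, hy]
    · have h4 : ∫⁻ y, ‖g y‖ₑ ^ 2 = ∫⁻ x in A, ‖v x‖ₑ ^ 2 := by
        rw [← lintegral_indicator measurableSet_A]
        congr 1
        funext y
        by_cases hy : y ∈ A
        · simp [hg, hy]
        · simp [hg, hy]
      rw [h4]
      have h5 : ∫⁻ x in A, ‖v x‖ₑ ^ 2 ≤ 1 := le_trans le_self_add h
      calc 2 * (∫⁻ x in A, ‖v x‖ₑ ^ 2) ^ 2 ≤ 2 * 1 ^ 2 := by gcongr
        _ = 2 := by norm_num
  have h6 : ∫⁻ ξ, ‖𝓕 k ξ‖ₑ ^ 4 ≤ 1 := by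
    refine (fourier_four k hki).trans ?_
    refine (young (fun y => ‖k y‖ₑ) hkm).trans ?_
    have h4 : ∫⁻ y, ‖k y‖ₑ ^ (4 / 3 : ℝ) = ∫⁻ x in Aᶜ, ‖v x‖ₑ ^ (4 / 3 : ℝ) := by
      rw [← lintegral_indicator measurableSet_A.compl]
      congr 1
      funext y
      by_cases hy : y ∈ A
      · simp [hk, hy]
      · simp [hk, hy]
    rw [h4]
    have h5 : ∫⁻ x in Aᶜ, ‖v x‖ₑ ^ (4 / 3 : ℝ) ≤ 1 := le_trans le_add_self h
    calc (∫⁻ x in Aᶜ, ‖v x‖ₑ ^ (4 / 3 : ℝ)) ^ 3 ≤ 1 ^ 3 := by gcongr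
      _ = 1 := by norm_num
  have hcont : ∀ {f : ℝ → ℂ}, Integrable f → Measurable (fun ξ => ‖𝓕 f ξ‖ₑ ^ 4) := by
    intro f hf
    have : Continuous (𝓕 f) := VectorFourier.fourierIntegral_continuous
      Real.continuous_fourierChar (innerSL ℝ).continuous₂ hf
    exact this.measurable.enorm.pow_const 4
  calc ∫⁻ ξ, ‖𝓕 v ξ‖ₑ ^ 4
      ≤ ∫⁻ ξ, 8 * (‖𝓕 g ξ‖ₑ ^ 4 + ‖𝓕 k ξ‖ₑ ^ 4) := by
        apply lintegral_mono
        intro ξ
        rw [hgk]
        refine (pow_le_pow_left' (fourier_add_le hgi hki ξ) 4).trans ?_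
        have h7 := ENNReal.rpow_add_le_mul_rpow_add_rpow ‖𝓕 g ξ‖ₑ ‖𝓕 k ξ‖ₑ
          (show (1 : ℝ) ≤ 4 by norm_num)
        have h8 : ((4 : ℝ) - 1) = ((3 : ℕ) : ℝ) := by norm_num
        have h9 : (4 : ℝ) = ((4 : ℕ) : ℝ) := by norm_num
        rw [h8, h9, ENNReal.rpow_natCast, ENNReal.rpow_natCast, ENNReal.rpow_natCast,
          ENNReal.rpow_natCast] at h7
        refine h7.trans (le_of_eq ?_)
        norm_num
    _ = 8 * ((∫⁻ ξ, ‖𝓕 g ξ‖ₑ ^ 4) + ∫⁻ ξ, ‖𝓕 k ξ‖ₑ ^ 4) := by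
        rw [lintegral_const_mul, lintegral_add_left (hcont hgi)]
        exact (hcont hgi).add (hcont hki)
    _ ≤ 8 * (2 + 1) := by gcongr
    _ = 24 := by norm_num

/-! ### The exponents -/

/-- The exponent `p`. -/
def pe (x : ℝ) : ℝ≥0∞ := by
  classical
  exact if x ∈ A then 2 else 4 / 3

lemma pe_mem {x : ℝ} (h : x ∈ A) : pe x = 2 := by unfold pe; rw [if_pos h]

lemma pe_notMem {x : ℝ} (h : x ∉ A) : pe x = 4 / 3 := by unfold pe; rw [if_neg h]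

lemma four_thirds_ne_top : (4 / 3 : ℝ≥0∞) ≠ ⊤ := (ENNReal.div_lt_top (by norm_num) (by norm_num)).ne

lemma pe_ne_top (x : ℝ) : pe x ≠ ⊤ := by
  by_cases h : x ∈ A
  · rw [pe_mem h]; norm_num
  · rw [pe_notMem h]; exact four_thirds_ne_top

lemma one_le_four_thirds : (1 : ℝ≥0∞) ≤ 4 / 3 := by
  rw [ENNReal.le_div_iff_mul_le (by norm_num) (by norm_num)]
  norm_num

lemma four_thirds_le_two : (4 / 3 : ℝ≥0∞) ≤ 2 := by
  apply ENNReal.div_le_of_le_mul
  norm_num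

lemma isExponent_pe : IsExponent pe := by
  constructor
  · unfold pe
    exact Measurable.ite measurableSet_A measurable_const measurable_const
  · intro x
    by_cases h : x ∈ A
    · rw [pe_mem h]; norm_num
    · rw [pe_notMem h]; exact one_le_four_thirds

lemma modular_pe (f : ℝ → ℂ) :
    modular pe f = (∫⁻ x in A, ‖f x‖ₑ ^ 2) + ∫⁻ x in Aᶜ, ‖f x‖ₑ ^ (4 / 3 : ℝ) := by
  unfold modular
  have h1 : {x | pe x ≠ ⊤} = Set.univ := Set.eq_univ_of_forall pe_ne_top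
  have h2 : {x | pe x = ⊤} = ∅ := Set.eq_empty_of_forall_notMem pe_ne_top
  rw [h1, h2, Measure.restrict_univ, Measure.restrict_empty, eLpNorm_measure_zero, add_zero,
    ← lintegral_add_compl _ measurableSet_A]
  congr 1
  · apply setLIntegral_congr_fun measurableSet_A
    intro x hx
    simp only
    rw [pe_mem hx]
    simp
  · apply setLIntegral_congr_fun measurableSet_A.compl
    intro x hx
    simp only
    rw [pe_notMem hx, ENNReal.toReal_div]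
    simp

lemma modular_four (f : ℝ → ℂ) :
    modular (fun _ => 4) f = ∫⁻ x, ‖f x‖ₑ ^ 4 := by
  unfold modular
  have h1 : {x : ℝ | (4 : ℝ≥0∞) ≠ ⊤} = Set.univ := Set.eq_univ_of_forall (fun _ => by norm_num)
  have h2 : {x : ℝ | (4 : ℝ≥0∞) = ⊤} = ∅ := Set.eq_empty_of_forall_notMem (fun _ => by norm_num)
  rw [h1, h2, Measure.restrict_univ, Measure.restrict_empty, eLpNorm_measure_zero, add_zero]
  congr 1
  funext x
  rw [← ENNReal.rpow_natCast]
  simp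

lemma fourierBounded : FourierBounded pe (fun _ => 4) := by
  refine ⟨3, ?_⟩
  intro f hf _
  unfold varNorm
  rw [ENNReal.mul_iInf_of_ne (by norm_num) (by norm_num)]
  apply le_iInf
  intro l
  rw [ENNReal.mul_iInf_of_ne (by norm_num) (by norm_num)]
  apply le_iInf
  rintro ⟨hl, hmod⟩
  have hgoal : modular (fun _ => 4) (fun x => 𝓕 f x / ((3 * l : ℝ) : ℂ)) ≤ 1 := by
    rw [modular_pe] at hmod
    have hb := main_bound (fun x => f x / l) (hf.div_const _) hmod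
    rw [modular_four]
    have hl' : (l : ℂ) ≠ 0 := by exact_mod_cast hl.ne'
    have h1 : ∀ ξ, 𝓕 f ξ / ((3 * l : ℝ) : ℂ) = (1 / 3 : ℂ) * 𝓕 (fun x => f x / l) ξ := by
      intro ξ
      have h2 : 𝓕 (fun x => f x / (l : ℂ)) ξ = 𝓕 f ξ / l := by
        rw [Real.fourier_real_eq_integral_exp_smul, Real.fourier_real_eq_integral_exp_smul,
          ← integral_div]
        congr 1
        funext v
        rw [smul_eq_mul, smul_eq_mul, mul_div_assoc]
      rw [h2]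
      push_cast
      field_simp
    simp_rw [h1, enorm_mul, mul_pow]
    rw [lintegral_const_mul' _ _ (by
      apply ENNReal.pow_ne_top
      exact enorm_ne_top)]
    have h3 : ‖(1 / 3 : ℂ)‖ₑ = (3 : ℝ≥0∞)⁻¹ := by
      rw [← ofReal_norm]
      simp only [one_div, norm_inv, Complex.norm_ofNat]
      rw [ENNReal.ofReal_inv_of_pos (by norm_num)]
      simp
    rw [h3]
    calc (3 : ℝ≥0∞)⁻¹ ^ 4 * ∫⁻ ξ, ‖𝓕 (fun x => f x / l) ξ‖ₑ ^ 4
        ≤ (3 : ℝ≥0∞)⁻¹ ^ 4 * 24 := by gcongr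
      _ ≤ (3 : ℝ≥0∞)⁻¹ ^ 4 * 3 ^ 4 := by gcongr; norm_num
      _ = 1 := by
        rw [← mul_pow, ENNReal.inv_mul_cancel (by norm_num) (by norm_num), one_pow]
  refine (iInf₂_le (3 * l) ⟨by positivity, hgoal⟩).trans ?_
  rw [ENNReal.ofReal_mul (by norm_num)]
  simp

lemma pminus_pe : pminus pe = 4 / 3 := by
  unfold pminus
  apply le_antisymm
  · by_contra hcon
    push Not at hcon
    have h1 : ∀ᵐ x : ℝ, essInf pe volume ≤ pe x := ae_essInf_le
    have h2 : ∀ᵐ x : ℝ, x ∉ Set.Ioo (0 : ℝ) 1 := by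
      filter_upwards [h1] with x hx hx2
      have h3 : x ∉ A := by
        intro h
        obtain ⟨n, hn⟩ := Set.mem_iUnion.mp h
        have h4 : (1 : ℝ) ≤ 4 ^ (n + 1) := one_le_pow₀ (by norm_num)
        linarith [hn.1, hx2.2]
      rw [pe_notMem h3] at hx
      exact absurd hx (not_le.mpr hcon)
    rw [ae_iff] at h2
    simp only [not_not, Set.ofPred_mem_eq] at h2
    rw [Real.volume_Ioo] at h2
    norm_num at h2
  · apply le_essInf_of_ae_le _ _ (by isBoundedDefault)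
    filter_upwards with x
    by_cases h : x ∈ A
    · rw [pe_mem h]; exact four_thirds_le_two
    · rw [pe_notMem h]

lemma defectR_mem {x : ℝ} (h : x ∈ A) : defectR pe x = 4 := by
  unfold defectR
  rw [pminus_pe, pe_mem h]
  have h1 : (4 / 3 : ℝ≥0∞)⁻¹ - 2⁻¹ = 4⁻¹ := by
    have h2 : (4 / 3 : ℝ≥0∞)⁻¹ = ENNReal.ofReal (3 / 4) := by
      rw [ENNReal.inv_div (by simp) (by simp), ENNReal.ofReal_div_of_pos (by norm_num)]
      simp
    have h3 : (2 : ℝ≥0∞)⁻¹ = ENNReal.ofReal (1 / 2) := by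
      rw [one_div, ENNReal.ofReal_inv_of_pos (by norm_num)]
      simp
    have h4 : (4 : ℝ≥0∞)⁻¹ = ENNReal.ofReal (1 / 4) := by
      rw [one_div, ENNReal.ofReal_inv_of_pos (by norm_num)]
      simp
    rw [h2, h3, h4, ← ENNReal.ofReal_sub _ (by norm_num)]
    norm_num
  rw [h1, inv_inv]

lemma defectR_notMem {x : ℝ} (h : x ∉ A) : defectR pe x = ⊤ := by
  unfold defectR
  rw [pminus_pe, pe_notMem h, tsub_self, ENNReal.inv_zero]

lemma defectS_eq (x : ℝ) : defectS pe (fun _ => 4) x = ⊤ := by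
  unfold defectS
  rw [pminus_pe]
  have h1 : (4 : ℝ≥0∞)⁻¹ - (1 - (4 / 3 : ℝ≥0∞)⁻¹) = 0 := by
    have h2 : (4 / 3 : ℝ≥0∞)⁻¹ = ENNReal.ofReal (3 / 4) := by
      rw [ENNReal.inv_div (by simp) (by simp), ENNReal.ofReal_div_of_pos (by norm_num)]
      simp
    have h4 : (4 : ℝ≥0∞)⁻¹ = ENNReal.ofReal (1 / 4) := by
      rw [one_div, ENNReal.ofReal_inv_of_pos (by norm_num)]
      simp
    rw [h2, h4, ← ENNReal.ofReal_one, ← ENNReal.ofReal_sub _ (by norm_num),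
      ← ENNReal.ofReal_sub _ (by norm_num)]
    norm_num
  rw [h1, ENNReal.inv_zero]

lemma isExponent_defectR : IsExponent (defectR pe) := by
  constructor
  · unfold defectR
    have := isExponent_pe.1
    fun_prop
  · intro x
    by_cases h : x ∈ A
    · rw [defectR_mem h]; norm_num
    · rw [defectR_notMem h]; exact le_top

lemma isExponent_defectS : IsExponent (defectS pe (fun _ => 4)) := by
  have : defectS pe (fun _ => 4) = fun _ => ⊤ := funext defectS_eq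
  rw [this]
  exact ⟨measurable_const, fun _ => le_top⟩

lemma not_mem : ¬ MemVar (defectR pe) (fun _ => 1) := by
  rintro ⟨_, l, hl, h⟩
  unfold modular at h
  have h1 : ∫⁻ x in {x | defectR pe x ≠ ⊤}, ‖((1 : ℂ) / l)‖ₑ ^ (defectR pe x).toReal = ⊤ := by
    have hset : {x | defectR pe x ≠ ⊤} = A := by
      ext x
      simp only [Set.mem_ofPred_eq]
      by_cases hx : x ∈ A
      · simp only [hx, iff_true, defectR_mem hx]; norm_num
      · simp only [hx, iff_false, defectR_notMem hx]; simp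
    rw [hset]
    have h2 : ∫⁻ x in A, ‖((1 : ℂ) / l)‖ₑ ^ (defectR pe x).toReal
        = ∫⁻ x in A, ‖((1 : ℂ) / l)‖ₑ ^ (4 : ℝ) := by
      apply setLIntegral_congr_fun measurableSet_A
      intro x hx
      simp only
      rw [defectR_mem hx]
      simp
    rw [h2, setLIntegral_const, volume_A, ENNReal.mul_top]
    have hne : ‖((1 : ℂ) / l)‖ₑ ≠ 0 := by
      rw [enorm_ne_zero]
      have : (l : ℂ) ≠ 0 := by exact_mod_cast hl.ne'
      exact div_ne_zero one_ne_zero this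
    exact (ENNReal.rpow_pos (pos_iff_ne_zero.mpr hne) enorm_ne_top).ne'
  rw [h1, top_add] at h
  exact lt_irrefl _ h

/-- **Disproof of MP_598c7e_an, Q1.** There are exponents `p, q` for which the Fourier transform is
bounded from `L^{p(·)}` to `L^{q(·)}`, the defect exponents `r, s` are exponents with values in
`[1,∞]`, but the constant function `1` does not belong to `L^{r(·)}`, hence not to
`L^{r(·)} ∩ L^{s(·)}`. -/
theorem result : ∃ p q : ℝ → ℝ≥0∞, IsExponent p ∧ IsExponent q ∧ FourierBounded p q ∧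
    IsExponent (defectR p) ∧ IsExponent (defectS p q) ∧
    ¬ MemVar (defectR p) (fun _ => 1) ∧
    ¬ (MemVar (defectR p) (fun _ => 1) ∧ MemVar (defectS p q) (fun _ => 1)) :=
  ⟨pe, fun _ => 4, isExponent_pe, ⟨measurable_const, fun _ => by norm_num⟩, fourierBounded,
    isExponent_defectR, isExponent_defectS, not_mem, fun h => not_mem h.1⟩

end Pool.Agent.Results.MP_598c7e_an.DefectNotIntegrable
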